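import Pool.Agent.X29.Tug.C3

set_option autoImplicit false

/-!
# The score of the prime gaps is positive at `n = 261150`

`a(261150) = 126044 - 126043 = 1`; the prime with index `261150` is `3666581`. The proof is a
computation with all the primes up to `3666581`, carried out by the kernel: `q` and `q + 2`,
`q ≡ 5 (mod 6)`, are tested for primality by their greatest common divisors with `1914!`, and the
numbers of the steps up and down are counted (`Pool.Agent.X29.Tug`).
-/

namespace Pool.Agent.Results.MP_69d63a_nt.PositiveScore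

/-- the prime with index `i`, counted from `0`: `p 0 = 2`, `p 1 = 3`, ... -/
noncomputable def p (i : ℕ) : ℕ := Nat.nth Nat.Prime i

/-- the `n`-th prime gap `g(n) = p_n - p_(n-1)` for `n ≥ 1` -/
noncomputable def g (n : ℕ) : ℤ := (p n : ℤ) - (p (n - 1) : ℤ)

/-- the score `a(n) = ∑_{k=2}^n sign (g(k) - g(k-1))`, which is `0` for `n ≤ 1` -/
noncomputable def a (n : ℕ) : ℤ := ∑ k ∈ Finset.Icc 2 n, Int.sign (g k - g (k - 1))

/-- **Theorem.** There is an integer `n > 250000` with `a(n) > 0`: for `n = 261150` one has
`p_n = 3666581` and `a(n) = 1`. -/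
theorem result : (∃ n : ℕ, 250000 < n ∧ 0 < a n) ∧ p 261150 = 3666581 ∧ a 261150 = 1 := by
  have h := Pool.Agent.X29.Tug.c306.hit (by norm_num)
  have h1 : a 261150 = 1 := by
    have h2 := h.sc
    have h3 : Pool.Agent.X29.Tug.up 10 42 126043 = 126044 := by decide +kernel
    have h4 : Pool.Agent.X29.Tug.dn 10 42 126043 = 126043 := by decide +kernel
    rw [h3, h4] at h2
    have h5 : a 261150 = Pool.Agent.X29.Tug.a (261149 + 1) := rfl
    rw [h5, h2]
    norm_num
  refine ⟨⟨261150, by norm_num, ?_⟩, ?_, h1⟩
  · rw [h1]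
    norm_num
  · have h2 := h.lt
    have h3 : p 261150 = Pool.Agent.X29.Tug.p (261149 + 1) := rfl
    rw [h3]
    omega

end Pool.Agent.Results.MP_69d63a_nt.PositiveScore
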